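import Pool.Agent.Work.MP_de2d29_al.Fin
import Pool.Agent.Work.MP_017613_gt.Literal

/-!
# Ideal boundaries of hyperbolic buildings are Menger spaces

Let `n ≥ 1`, let `poly e` be a compact Coxeter polytope in hyperbolic space of dimension `n + 1`
with Coxeter matrix `M`, and let `Δ` be a thick, locally finite building of type `M`. The geometric
realization `Space e Δ` is obtained by gluing copies of the polytope along the common facets of
adjacent chambers, with the length metric. For every point `o` of it the ideal boundary
`Bdry e Δ o`, the space of the geodesic rays issuing from `o` with the compact-open topology, is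
homeomorphic to the stable `n`-dimensional Menger space: to `MG.menger n m`, for every
`m ≥ 2 * n + 1`.
-/

set_option autoImplicit false

namespace Pool.Agent.Results.MP_de2d29_al.BuildingBoundaryMenger

open BD

/-- The ideal boundary of every thick, locally finite hyperbolic building with a compact chamber in
hyperbolic space of dimension `n + 1` is the stable `n`-dimensional Menger space. -/
theorem result :
    ∀ (n : ℕ), 1 ≤ n → ∀ (ι : Type) [Finite ι] (M : CoxeterMatrix ι) (e : ι → Mink (n + 1)),
      IsCoxeterPolytope M e → ∀ (C : Type) (Δ : Building M C), Δ.Thick → Δ.LocFinite →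
      ∀ (o : Space e Δ) (m : ℕ), 2 * n + 1 ≤ m → Nonempty (Bdry e Δ o ≃ₜ MG.menger n m) := by
  intro n hn ι _ M e hP C Δ hT hL o m hm
  rw [MG.menger_eq_mu]
  exact main n hn ι M e hP C Δ hT hL o m hm

end Pool.Agent.Results.MP_de2d29_al.BuildingBoundaryMenger
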